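import Pool.Agent.H.MP_1611f1_gt.RF.Tw

/-!
Arcs and fillings with smaller collars; mapping tori of monodromies which differ by boundary
twists.
-/

namespace Pool.Agent.H.MP_1611f1_gt

open Topology Set Filter

section

variable {S : Type*} [TopologicalSpace S] {J K : Type*} {E : Surf S J} {col : J → K} {L : J → ℕ}

theorem Arcs.L_pos (A : Arcs E col L) (j : J) : 0 < L j := by
  rcases Nat.eq_zero_or_pos (L j) with h | h
  · exfalso
    have r : Ioo (1 : ℝ) 2 := ⟨3 / 2, by norm_num, by norm_num⟩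
    have h0 := A.end_a j 0 0 r ⟨le_rfl, zero_le_one⟩
    have h1 := A.end_a j 0 (1 / 2) r ⟨by norm_num, by norm_num⟩
    rw [h] at h0 h1
    simp only [Nat.cast_zero, mul_zero, div_zero, Nat.zero_mod, if_true] at h0 h1
    rw [h0] at h1
    have h2 := (AddCircle.coe_eq_coe_iff_of_mem_Ico (p := (1 : ℝ)) (a := 0)
      ⟨le_rfl, by norm_num⟩ ⟨by norm_num, by norm_num⟩).1 h1
    norm_num at h2
  · exact h

/-- on the collars the collapse maps do not depend on the radius -/
theorem Arcs.radial (A : Arcs E col L) (k : K) (j : J) (θ : AddCircle (1 : ℝ))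
    (r r' : Ioo (1 : ℝ) 2) : A.a k (E.collar j (θ, r)) = A.a k (E.collar j (θ, r')) ∧
      A.b k (E.collar j (θ, r)) = A.b k (E.collar j (θ, r')) := by
  by_cases hk : k = col j
  · subst hk
    have hL : (0 : ℝ) < 4 * L j := by
      have : (0 : ℝ) < L j := by exact_mod_cast A.L_pos j
      positivity
    obtain ⟨x, hx, rfl⟩ : ∃ x : ℝ, 0 ≤ x ∧ θ = (x : AddCircle (1 : ℝ)) := by
      obtain ⟨y, rfl⟩ := QuotientAddGroup.mk_surjective θ
      refine ⟨Int.fract y, Int.fract_nonneg y, ?_⟩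
      have h1 : y = Int.fract y + (⌊y⌋ : ℝ) := (Int.fract_add_floor y).symm
      have h2 : ((⌊y⌋ : ℝ) : AddCircle (1 : ℝ)) = 0 := by
        rw [AddCircle.coe_eq_zero_iff]
        exact ⟨⌊y⌋, by simp⟩
      show ((y : ℝ) : AddCircle (1 : ℝ)) = _
      rw [h1, AddCircle.coe_add, h2, add_zero]
      simp
    obtain ⟨m, u, hu, hm⟩ : ∃ (m : ℕ) (u : ℝ), u ∈ Icc (0 : ℝ) 1 ∧ x = (m + u) / (4 * L j) := by
      refine ⟨⌊x * (4 * L j)⌋₊, x * (4 * L j) - ⌊x * (4 * L j)⌋₊, ⟨?_, ?_⟩, ?_⟩
      · have := Nat.floor_le (mul_nonneg hx hL.le)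
        linarith
      · have := Nat.lt_floor_add_one (x * (4 * L j))
        linarith
      · rw [add_sub_cancel, mul_div_cancel_right₀ _ hL.ne']
    rw [hm, A.end_a j m u r hu, A.end_a j m u r' hu, A.end_b j m u r hu, A.end_b j m u r' hu]
    exact ⟨rfl, rfl⟩
  · rw [(A.other k j _ hk).1, (A.other k j _ hk).1, (A.other k j _ hk).2, (A.other k j _ hk).2]
    exact ⟨rfl, rfl⟩

/-- the arcs in the surface with smaller collars -/
noncomputable def Arcs.shrink (A : Arcs E col L) : Arcs E.shrink col L where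
  a := A.a
  b := A.b
  disj_ab := A.disj_ab
  disj_aa := A.disj_aa
  disj_bb := A.disj_bb
  other k j z hk := A.other k j _ hk
  end_a j k u r hu := A.end_a j k u (Tw_eta r) hu
  end_b j k u r hu := A.end_b j k u (Tw_eta r) hu
  reach x hx := by
    obtain ⟨j, ⟨θ, r⟩, h⟩ := A.reach x hx
    refine ⟨j, (θ, r), h.trans ?_⟩
    have hmem := h.target_mem
    -- the radial path
    have hpc : PathConnectedSpace (Ioo (1 : ℝ) 2) := by
      rw [← isPathConnected_iff_pathConnectedSpace]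
      exact (convex_Ioo (1 : ℝ) 2).isPathConnected ⟨3 / 2, by norm_num, by norm_num⟩
    obtain ⟨γ⟩ := hpc.joined r (Tw_eta r)
    refine ⟨⟨⟨fun s => E.collar j (θ, γ s), ?_⟩, ?_, ?_⟩, fun s => ?_⟩
    · exact (E.emb j).continuous.comp (continuous_const.prodMk γ.continuous)
    · show E.collar j (θ, γ 0) = _
      rw [γ.source]
    · show E.collar j (θ, γ 1) = _
      rw [γ.target]
      rfl
    · show E.collar j (θ, γ s) ∈ _
      intro k
      have h1 := A.radial k j θ (γ s) r
      rw [h1.1, h1.2]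
      exact hmem k

/-- the factors in the surface with smaller collars -/
noncomputable def Factors.shrink {A : Arcs E col L} {n : ℕ} (Φ : Factors A n) :
    Factors A.shrink n where
  g := Φ.g
  h := Φ.h
  g_collar i j _ := Φ.g_collar i j _
  h_collar i j _ := Φ.h_collar i j _
  g_a := Φ.g_a
  h_b := Φ.h_b

theorem Factors.shrink_phi {A : Arcs E col L} {n : ℕ} (Φ : Factors A n) : Φ.shrink.phi = Φ.phi :=
  rfl

end

section

variable {S : Type*} [TopologicalSpace S] {J : Type*}

/-- the powers of the product with a boundary twist -/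
theorem Tw_pow [Finite J] (E : Surf S J) (phi : S ≃ₜ S)
    (hphi : ∀ j z, phi (E.collar j z) = E.collar j z) (κ : J → ℤ) (k : ℤ) :
    (E.rot (fun j => (κ j : ℝ)) * phi) ^ k = E.rot (fun j => (κ j : ℝ) * k) * phi ^ k := by
  rw [(E.rot_comm _ phi hphi).mul_zpow, E.rot_zpow]

theorem Tw_pow_collar (E : Surf S J) (phi : S ≃ₜ S)
    (hphi : ∀ j z, phi (E.collar j z) = E.collar j z) (k : ℤ) (j : J)
    (z : AddCircle (1 : ℝ) × Ioo (1 : ℝ) 2) : (phi ^ k) (E.collar j z) = E.collar j z := by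
  induction k using Int.induction_on with
  | zero => rfl
  | succ i ih => rw [zpow_add_one, Homeomorph.mul_apply, hphi, ih]
  | pred i ih =>
    rw [zpow_sub_one, Homeomorph.mul_apply]
    have h : phi⁻¹ (E.collar j z) = E.collar j z := by
      show phi.symm (E.collar j z) = _
      rw [Homeomorph.symm_apply_eq, hphi]
    rw [h, ih]

/-- the equivalence relation of the mapping torus in the rotating coordinates -/
theorem Tw_eq [Finite J] (E : Surf S J) (phi : S ≃ₜ S)
    (hphi : ∀ j z, phi (E.collar j z) = E.collar j z) (κ : J → ℤ) {M : Type*} (p : S × ℝ → M)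
    (hp : ∀ x t x' t', p (x, t) = p (x', t') ↔ ∃ k : ℤ, t' = t + k ∧
      x = ((E.rot (fun j => (κ j : ℝ)) * phi) ^ k) x') (x : S) (t : ℝ) (x' : S) (t' : ℝ) :
    p (Tw_Psi E (fun j => -(κ j : ℝ)) (x, t)) = p (Tw_Psi E (fun j => -(κ j : ℝ)) (x', t')) ↔
      ∃ k : ℤ, t' = t + k ∧ x = (phi ^ k) x' := by
  show p (rotFun E (fun j => -(κ j : ℝ) * t) x, t) =
    p (rotFun E (fun j => -(κ j : ℝ) * t') x', t') ↔ _
  rw [hp]
  refine exists_congr fun k => and_congr_right fun hk => ?_
  rw [Tw_pow E phi hphi]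
  have h1 : (E.rot (fun j => (κ j : ℝ) * k) * phi ^ k)
      (rotFun E (fun j => -(κ j : ℝ) * t') x') =
      rotFun E (fun j => -(κ j : ℝ) * t) ((phi ^ k) x') := by
    show rotFun E (fun j => (κ j : ℝ) * k) ((phi ^ k) (E.rot (fun j => -(κ j : ℝ) * t') x')) = _
    have h2 := congrArg (fun f : S ≃ₜ S => f x')
      (E.rot_comm (fun j => -(κ j : ℝ) * t') (phi ^ k) (Tw_pow_collar E phi hphi k)).eq
    have h3 : (phi ^ k) (E.rot (fun j => -(κ j : ℝ) * t') x') =
        rotFun E (fun j => -(κ j : ℝ) * t') ((phi ^ k) x') := h2.symm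
    rw [h3, rotFun_add]
    congr 1
    funext j
    simp only [Pi.add_apply]
    rw [hk]
    ring
  rw [h1]
  exact ((E.rot fun j => -(κ j : ℝ) * t).injective).eq_iff

/-- Fillings of the mapping torus of `rot κ * phi` are fillings of the mapping torus of `phi`:
the filling matrices are multiplied by a shear. -/
noncomputable def Filling.reframe [Finite J] (E : Surf S J) (phi : S ≃ₜ S)
    (hphi : ∀ j z, phi (E.collar j z) = E.collar j z) (κ : J → ℤ) {al be ga de : J → ℤ}
    {Y : Type*} [TopologicalSpace Y]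
    (Fl : Filling E.shrink (E.rot (fun j => (κ j : ℝ)) * phi) al be ga de Y) :
    Filling E.shrink phi al (fun j => be j - κ j * al j) ga (fun j => de j - κ j * ga j) Y where
  p z := Fl.p (Tw_Psi E (fun j => -(κ j : ℝ)) z)
  q := Fl.q
  p_loc := Fl.p_loc.comp (Tw_Psi E (fun j => -(κ j : ℝ))).isLocalHomeomorph
  p_eq x t x' t' := Tw_eq E phi hphi κ Fl.p Fl.p_eq x t x' t'
  q_emb := Fl.q_emb
  q_disj := Fl.q_disj
  glue j θ r t := by
    show Fl.p (E.rot (fun j => -(κ j : ℝ) * t) (E.shrink.collar j (θ, r)), t) = _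
    rw [E.rot_shrink, Fl.glue]
    have h : ∀ a b : ℤ, a • (θ + ((-(κ j : ℝ) * t : ℝ) : AddCircle (1 : ℝ))) +
        ((b * t : ℝ) : AddCircle (1 : ℝ)) =
        a • θ + (((b - κ j * a : ℤ) * t : ℝ) : AddCircle (1 : ℝ)) := by
      intro a b
      rw [smul_add, add_assoc]
      congr 1
      have h1 : a • ((-(κ j : ℝ) * t : ℝ) : AddCircle (1 : ℝ)) =
          ((a * (-(κ j : ℝ) * t) : ℝ) : AddCircle (1 : ℝ)) := by
        rw [← zsmul_eq_mul]
        rfl
      rw [h1, ← AddCircle.coe_add]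
      congr 1
      push_cast
      ring
    rw [h, h]
  overlap x t j z h := by
    have h0 : Fl.p (E.rot (fun j => -(κ j : ℝ) * t) x, t) = Fl.q j z := h
    obtain ⟨w, hw⟩ := Fl.overlap _ _ _ _ h0
    refine ⟨(w.1 + ((κ j * t : ℝ) : AddCircle (1 : ℝ)), w.2), ?_⟩
    apply (E.rot fun j => -(κ j : ℝ) * t).injective
    rw [hw, E.rot_shrink, add_assoc, ← AddCircle.coe_add]
    have : (κ j : ℝ) * t + -(κ j : ℝ) * t = 0 := by ring
    rw [this, AddCircle.coe_zero, add_zero]
  cover y := by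
    rcases Fl.cover y with ⟨z, hz⟩ | h
    · refine Or.inl ⟨(Tw_Psi E (fun j => -(κ j : ℝ))).symm z, ?_⟩
      rw [Homeomorph.apply_symm_apply, hz]
    · exact Or.inr h

end

end Pool.Agent.H.MP_1611f1_gt
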