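import Pool.Agent.H.MP_1611f1_gt.RF.Re
import Pool.Agent.H.MP_1611f1_gt.Main

/-!
The main theorem with boundary twists.
-/

namespace Pool.Agent.H.MP_1611f1_gt

open Topology Set Filter

theorem Factors.phi_collar {S : Type*} [TopologicalSpace S] {J K : Type*} {E : Surf S J}
    {col : J → K} {L : J → ℕ} {A : Arcs E col L} {n : ℕ} (Φ : Factors A n) (j : J)
    (z : AddCircle (1 : ℝ) × Ioo (1 : ℝ) 2) : Φ.phi (E.collar j z) = E.collar j z := by
  have h : ∀ l : List (S ≃ₜ S), (∀ f ∈ l, f (E.collar j z) = E.collar j z) →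
      l.prod (E.collar j z) = E.collar j z := by
    intro l
    induction l with
    | nil => intro _; rfl
    | cons f l ih =>
      intro hl
      rw [List.prod_cons, Homeomorph.mul_apply, ih fun g hg => hl g (List.mem_cons_of_mem _ hg),
        hl f List.mem_cons_self]
  apply h
  intro f hf
  rw [List.mem_ofFn] at hf
  obtain ⟨i, rfl⟩ := hf
  rw [Homeomorph.mul_apply, Φ.g_collar, Φ.h_collar]

/-- The monodromy is the product of the boundary twists with exponents `κ j` and of the factors.
The multislopes are those with `ga / (de - κ ga)` in the box; if `n ≤ |κ j| * L j` for all `j`,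
the box is unbounded. -/
theorem main_twist {S : Type*} [TopologicalSpace S] [ConnectedSpace S] {J K : Type*} [Finite J]
    [Finite K] [Nonempty J] {Y : Type*} [TopologicalSpace Y] (E : Surf S J) (col : J → K)
    (L : J → ℕ) (hL : ∀ j, 0 < L j) (A : Arcs E col L) (n : ℕ) (hn : 0 < n) (Φ : Factors A n)
    (κ : J → ℤ) (al be ga de : J → ℤ) (hdet : ∀ j, al j * de j - be j * ga j = 1)
    (hde : ∀ j, de j - κ j * ga j ≠ 0) (σ : K → ℝ) (hσ : ∀ k, |σ k| < 1)
    (hslope : ∀ j, (ga j : ℝ) / (de j - κ j * ga j) = σ (col j) * L j / n)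
    (Fl : Filling E.shrink (E.rot (fun j => (κ j : ℝ)) * Φ.phi) al be ga de Y) :
    ∃ F : Foliation Y, F.Taut := by
  refine main E.shrink col L hL A.shrink n hn Φ.shrink al (fun j => be j - κ j * al j) ga
    (fun j => de j - κ j * ga j) (fun j => ?_) hde σ hσ (fun j => ?_)
    (Filling.reframe E Φ.phi Φ.phi_collar κ Fl)
  · have := hdet j
    linear_combination this
  · have := hslope j
    push_cast
    exact this

end Pool.Agent.H.MP_1611f1_gt
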