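import Pool.Agent.H.MP_1611f1_gt.Defs

/-!
Rotations of the collars, boundary twists, and smaller collars.
-/

namespace Pool.Agent.H.MP_1611f1_gt

open Topology Set Filter

/-- the cut-off function: `1` for `r ≤ 5/3`, `0` for `r ≥ 11/6` -/
noncomputable def Tw_chi (r : ℝ) : ℝ := max 0 (min 1 (11 - 6 * r))

theorem Tw_chi_cont : Continuous Tw_chi := by
  unfold Tw_chi
  fun_prop

theorem Tw_chi_one {r : ℝ} (h : r ≤ 5 / 3) : Tw_chi r = 1 := by
  rw [Tw_chi, min_eq_left (by linarith), max_eq_right zero_le_one]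

theorem Tw_chi_zero {r : ℝ} (h : 11 / 6 ≤ r) : Tw_chi r = 0 := by
  rw [Tw_chi, max_eq_left ((min_le_right _ _).trans (by linarith))]

/-- the new radius: `r` for `r ≤ 4/3`, linear from `(4/3, 2)` to `(4/3, 5/3)` -/
noncomputable def Tw_rad (r : ℝ) : ℝ := min r (2 / 3 + r / 2)

theorem Tw_rad_mem (r : Ioo (1 : ℝ) 2) : Tw_rad r ∈ Ioo (1 : ℝ) (5 / 3) := by
  have h1 := r.2.1
  have h2 := r.2.2
  refine ⟨lt_min h1 (by linarith), (min_le_right _ _).trans_lt (by linarith)⟩

theorem Tw_rad_cont : Continuous Tw_rad := by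
  unfold Tw_rad
  fun_prop

theorem Tw_rad_strictMono : StrictMono Tw_rad := by
  intro r s h
  exact lt_min ((min_le_left _ _).trans_lt h) ((min_le_right _ _).trans_lt (by linarith))

theorem Tw_rad_eq {r : ℝ} (h : r ≤ 4 / 3) : Tw_rad r = r := by
  rw [Tw_rad, min_eq_left (by linarith)]

/-- the new radius, as a point of the old interval -/
noncomputable def Tw_eta (r : Ioo (1 : ℝ) 2) : Ioo (1 : ℝ) 2 :=
  ⟨Tw_rad r, (Tw_rad_mem r).1, (Tw_rad_mem r).2.trans (by norm_num)⟩

theorem Tw_eta_lt (r : Ioo (1 : ℝ) 2) : (Tw_eta r : ℝ) < 5 / 3 := (Tw_rad_mem r).2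

theorem Tw_eta_val (r : Ioo (1 : ℝ) 2) : (Tw_eta r : ℝ) = Tw_rad r := rfl

theorem Tw_eta_eq {r : Ioo (1 : ℝ) 2} (h : (r : ℝ) ≤ 4 / 3) : Tw_eta r = r :=
  Subtype.ext (Tw_rad_eq h)

theorem Tw_eta_emb : IsOpenEmbedding Tw_eta := by
  have hc : Continuous Tw_eta := by
    apply Continuous.subtype_mk
    exact Tw_rad_cont.comp continuous_subtype_val
  have hm : StrictMono Tw_eta := fun r s h => Tw_rad_strictMono h
  -- the inverse on the image
  have himg : ∀ s : Ioo (1 : ℝ) 2, (s : ℝ) < 5 / 3 → ∃ r : Ioo (1 : ℝ) 2, Tw_eta r = s := by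
    intro s hs
    have h1 := s.2.1
    refine ⟨⟨max s (2 * s - 4 / 3), lt_max_of_lt_left h1, max_lt s.2.2 (by linarith)⟩, ?_⟩
    apply Subtype.ext
    show Tw_rad (max (s : ℝ) (2 * s - 4 / 3)) = s
    rcases le_total (s : ℝ) (4 / 3) with h | h
    · rw [max_eq_left (by linarith), Tw_rad_eq h]
    · rw [max_eq_right (by linarith), Tw_rad, min_eq_right (by linarith)]
      ring
  refine IsOpenEmbedding.of_continuous_injective_isOpenMap hc hm.injective ?_
  rw [isOpenMap_iff_nhds_le]
  intro r N hN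
  rw [mem_map] at hN
  -- the image of a neighbourhood contains an interval
  obtain ⟨a, b, har, hrb, hab⟩ : ∃ a b : Ioo (1 : ℝ) 2, a < r ∧ r < b ∧ Ioo a b ⊆ Tw_eta ⁻¹' N := by
    have ha : ∃ a : Ioo (1 : ℝ) 2, a < r := by
      obtain ⟨a, h1, h2⟩ := exists_between r.2.1
      exact ⟨⟨a, h1, h2.trans r.2.2⟩, h2⟩
    have hb : ∃ b : Ioo (1 : ℝ) 2, r < b := by
      obtain ⟨b, h1, h2⟩ := exists_between r.2.2
      exact ⟨⟨b, r.2.1.trans h1, h2⟩, h1⟩
    obtain ⟨a, b, hr, hs⟩ := (mem_nhds_iff_exists_Ioo_subset' ha hb).1 hN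
    exact ⟨a, b, hr.1, hr.2, hs⟩
  have hN' : Ioo (Tw_eta a) (Tw_eta b) ∈ 𝓝 (Tw_eta r) := Ioo_mem_nhds (hm har) (hm hrb)
  refine mem_of_superset hN' ?_
  intro s hs
  have hs2 : (s : ℝ) < 5 / 3 := lt_trans (show (s : ℝ) < Tw_eta b from hs.2) (Tw_eta_lt b)
  obtain ⟨r', hr'⟩ := himg s hs2
  rw [← hr'] at hs ⊢
  exact hab ⟨hm.lt_iff_lt.1 hs.1, hm.lt_iff_lt.1 hs.2⟩

section

variable {S : Type*} [TopologicalSpace S] {J : Type*}

/-- the surface with smaller collars: the new collars consist of the points of radius `< 5/3` -/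
noncomputable def Surf.shrink (E : Surf S J) : Surf S J where
  flat := E.flat
  collar j z := E.collar j (z.1, Tw_eta z.2)
  emb j := (E.emb j).comp (IsOpenEmbedding.id.prodMap Tw_eta_emb)
  disj i j _ _ h := E.disj i j _ _ h
  closed j r hr := by
    have h1 : (fun z : AddCircle (1 : ℝ) × Ioo (1 : ℝ) 2 => E.collar j (z.1, Tw_eta z.2)) ''
        {z | (z.2 : ℝ) ≤ r} = E.collar j '' {z | (z.2 : ℝ) ≤ Tw_rad r} := by
      ext x
      constructor
      · rintro ⟨z, hz, rfl⟩
        exact ⟨(z.1, Tw_eta z.2), Tw_rad_strictMono.monotone hz, rfl⟩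
      · rintro ⟨z, hz, rfl⟩
        have hz' : (z.2 : ℝ) ≤ Tw_rad r := hz
        have h2 : (z.2 : ℝ) < 5 / 3 :=
          hz'.trans_lt ((min_le_right _ _).trans_lt (by linarith))
        have h3 := z.2.2.1
        have h4 : max (z.2 : ℝ) (2 * z.2 - 4 / 3) ∈ Ioo (1 : ℝ) 2 :=
          ⟨lt_max_of_lt_left h3, max_lt z.2.2.2 (by linarith)⟩
        have h5 : Tw_rad (max (z.2 : ℝ) (2 * z.2 - 4 / 3)) = z.2 := by
          rcases le_total (z.2 : ℝ) (4 / 3) with h | h
          · rw [max_eq_left (by linarith), Tw_rad_eq h]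
          · rw [max_eq_right (by linarith), Tw_rad, min_eq_right (by linarith)]
            ring
        refine ⟨(z.1, ⟨_, h4⟩), ?_, ?_⟩
        · show max (z.2 : ℝ) (2 * z.2 - 4 / 3) ≤ r
          apply Tw_rad_strictMono.le_iff_le.1
          rw [h5]
          exact hz'
        · have h6 : Tw_eta ⟨_, h4⟩ = z.2 := Subtype.ext h5
          show E.collar j (z.1, Tw_eta ⟨_, h4⟩) = _
          rw [h6]
    rw [h1]
    exact E.closed j _ ((min_le_right _ _).trans_lt (by linarith))

theorem Surf.shrink_collar (E : Surf S J) (j : J) (θ : AddCircle (1 : ℝ)) (r : Ioo (1 : ℝ) 2) :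
    E.shrink.collar j (θ, r) = E.collar j (θ, Tw_eta r) := rfl

open Classical in
/-- the rotation of the collars by the angles `c j * Tw_chi r` -/
noncomputable def rotFun (E : Surf S J) (c : J → ℝ) (x : S) : S :=
  if h : ∃ w : J × (AddCircle (1 : ℝ) × Ioo (1 : ℝ) 2), E.collar w.1 w.2 = x then
    E.collar h.choose.1 (h.choose.2.1 +
      ((c h.choose.1 * Tw_chi h.choose.2.2 : ℝ) : AddCircle (1 : ℝ)), h.choose.2.2)
  else x

theorem rotFun_collar (E : Surf S J) (c : J → ℝ) (j : J) (θ : AddCircle (1 : ℝ))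
    (r : Ioo (1 : ℝ) 2) :
    rotFun E c (E.collar j (θ, r)) =
      E.collar j (θ + ((c j * Tw_chi r : ℝ) : AddCircle (1 : ℝ)), r) := by
  have h : ∃ w : J × (AddCircle (1 : ℝ) × Ioo (1 : ℝ) 2), E.collar w.1 w.2 = E.collar j (θ, r) :=
    ⟨(j, (θ, r)), rfl⟩
  rw [rotFun, dif_pos h]
  have h1 := h.choose_spec
  generalize h.choose = w at h1 ⊢
  obtain ⟨j', z⟩ := w
  have h2 : j' = j := E.disj _ _ _ _ h1
  subst h2
  have h3 : z = (θ, r) := (E.emb _).injective h1
  subst h3
  rfl

theorem rotFun_off (E : Surf S J) (c : J → ℝ) (x : S) (hx : ∀ j z, E.collar j z ≠ x) :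
    rotFun E c x = x := by
  rw [rotFun, dif_neg]
  rintro ⟨w, hw⟩
  exact hx _ _ hw

/-- every point lies on a collar or outside of them -/
theorem Tw_cases (E : Surf S J) (x : S) :
    (∃ j θ r, x = E.collar j (θ, r)) ∨ ∀ j z, E.collar j z ≠ x := by
  by_cases h : ∃ j z, E.collar j z = x
  · obtain ⟨j, z, hz⟩ := h
    exact Or.inl ⟨j, z.1, z.2, hz.symm⟩
  · push Not at h
    exact Or.inr h

theorem rotFun_add (E : Surf S J) (c d : J → ℝ) (x : S) :
    rotFun E c (rotFun E d x) = rotFun E (c + d) x := by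
  rcases Tw_cases E x with ⟨j, θ, r, rfl⟩ | h
  · rw [rotFun_collar, rotFun_collar, rotFun_collar, Pi.add_apply, add_mul]
    congr 2
    rw [AddCircle.coe_add]
    abel
  · rw [rotFun_off E d x h, rotFun_off E c x h, rotFun_off E _ x h]

theorem rotFun_zero (E : Surf S J) (x : S) : rotFun E 0 x = x := by
  rcases Tw_cases E x with ⟨j, θ, r, rfl⟩ | h
  · rw [rotFun_collar, Pi.zero_apply, zero_mul, AddCircle.coe_zero, add_zero]
  · exact rotFun_off E 0 x h

/-- the rotation is jointly continuous -/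
theorem rotFun_cont [Finite J] (E : Surf S J) (c : J → ℝ) :
    Continuous fun z : S × ℝ => rotFun E (fun j => c j * z.2) z.1 := by
  rw [continuous_iff_continuousAt]
  rintro ⟨x, t⟩
  rcases Tw_cases E x with ⟨j, θ, r, rfl⟩ | h
  · have h1 : IsOpenEmbedding
        (Prod.map (E.collar j) id : (AddCircle (1 : ℝ) × Ioo (1 : ℝ) 2) × ℝ → S × ℝ) :=
      (E.emb j).prodMap IsOpenEmbedding.id
    have h2 := h1.continuousAt_iff (g := fun z : S × ℝ => rotFun E (fun j => c j * z.2) z.1)
      (x := ((θ, r), t))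
    refine h2.1 ?_
    have h3 : ((fun z : S × ℝ => rotFun E (fun j => c j * z.2) z.1) ∘ Prod.map (E.collar j) id) =
        fun w : (AddCircle (1 : ℝ) × Ioo (1 : ℝ) 2) × ℝ =>
          E.collar j (w.1.1 + ((c j * w.2 * Tw_chi w.1.2 : ℝ) : AddCircle (1 : ℝ)), w.1.2) := by
      funext w
      exact rotFun_collar E (fun j => c j * w.2) j w.1.1 w.1.2
    rw [h3]
    apply Continuous.continuousAt
    refine (E.emb j).continuous.comp ?_
    refine Continuous.prodMk ?_ (by fun_prop)
    refine (by fun_prop : Continuous fun w : (AddCircle (1 : ℝ) × Ioo (1 : ℝ) 2) × ℝ =>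
      w.1.1).add ?_
    refine (AddCircle.continuous_mk' (1 : ℝ)).comp ?_
    exact ((continuous_const.mul continuous_snd).mul
      (Tw_chi_cont.comp (by fun_prop)))
  · have hcl : IsClosed (⋃ j, E.collar j '' {z | (z.2 : ℝ) ≤ 11 / 6}) :=
      isClosed_iUnion_of_finite fun j => E.closed j _ (by norm_num)
    have hx : (x, t) ∈ ((⋃ j, E.collar j '' {z | (z.2 : ℝ) ≤ 11 / 6})ᶜ ×ˢ (univ : Set ℝ)) := by
      refine ⟨?_, mem_univ _⟩
      intro hx
      obtain ⟨j, z, -, hz⟩ := mem_iUnion.1 hx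
      exact h j z hz
    have hev : (fun z : S × ℝ => rotFun E (fun j => c j * z.2) z.1) =ᶠ[𝓝 (x, t)] Prod.fst := by
      filter_upwards [(hcl.isOpen_compl.prod isOpen_univ).mem_nhds hx] with w hw
      rcases Tw_cases E w.1 with ⟨j, θ, r, hj⟩ | h'
      · rw [hj, rotFun_collar]
        have h5 : (11 / 6 : ℝ) ≤ r := by
          by_contra h6
          apply hw.1
          rw [hj]
          exact mem_iUnion.2 ⟨j, (θ, r), (not_le.1 h6).le, rfl⟩
        rw [Tw_chi_zero h5, mul_zero, AddCircle.coe_zero, add_zero]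
      · exact rotFun_off E _ _ h'
    exact (continuous_fst.continuousAt).congr hev.symm

/-- the rotation of the collars, a homeomorphism of `S × ℝ` -/
noncomputable def Tw_Psi [Finite J] (E : Surf S J) (c : J → ℝ) : S × ℝ ≃ₜ S × ℝ where
  toFun z := (rotFun E (fun j => c j * z.2) z.1, z.2)
  invFun z := (rotFun E (fun j => -c j * z.2) z.1, z.2)
  left_inv z := by
    refine Prod.ext ?_ rfl
    show rotFun E (fun j => -c j * z.2) (rotFun E (fun j => c j * z.2) z.1) = z.1
    rw [rotFun_add]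
    have : ((fun j => -c j * z.2) + fun j => c j * z.2) = (0 : J → ℝ) := by
      funext j
      simp
    rw [this, rotFun_zero]
  right_inv z := by
    refine Prod.ext ?_ rfl
    show rotFun E (fun j => c j * z.2) (rotFun E (fun j => -c j * z.2) z.1) = z.1
    rw [rotFun_add]
    have : ((fun j => c j * z.2) + fun j => -c j * z.2) = (0 : J → ℝ) := by
      funext j
      simp
    rw [this, rotFun_zero]
  continuous_toFun := (rotFun_cont E c).prodMk continuous_snd
  continuous_invFun := (rotFun_cont E fun j => -c j).prodMk continuous_snd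

/-- the rotation of the collars, a homeomorphism of `S`. If all `c j` are integers, this is the
product of the `c j`-th powers of the boundary twists (it is the identity for `r ≤ 5/3`, and
`θ ↦ θ + c j * Tw_chi r` between). -/
noncomputable def Surf.rot [Finite J] (E : Surf S J) (c : J → ℝ) : S ≃ₜ S where
  toFun := rotFun E c
  invFun := rotFun E (-c)
  left_inv x := by rw [rotFun_add, neg_add_cancel, rotFun_zero]
  right_inv x := by rw [rotFun_add, add_neg_cancel, rotFun_zero]
  continuous_toFun := by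
    have h := (rotFun_cont E c).comp (continuous_id.prodMk (continuous_const (y := (1 : ℝ))))
    have h2 : ((fun z : S × ℝ => rotFun E (fun j => c j * z.2) z.1) ∘ fun x : S =>
        (id x, (1 : ℝ))) = rotFun E c := by
      funext x
      simp
    rwa [h2] at h
  continuous_invFun := by
    have h := (rotFun_cont E (-c)).comp (continuous_id.prodMk (continuous_const (y := (1 : ℝ))))
    have h2 : ((fun z : S × ℝ => rotFun E (fun j => (-c) j * z.2) z.1) ∘ fun x : S =>
        (id x, (1 : ℝ))) = rotFun E (-c) := by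
      funext x
      show rotFun E (fun j => (-c) j * 1) x = _
      congr 1
      funext j
      rw [mul_one]
    rwa [h2] at h

theorem Surf.rot_apply [Finite J] (E : Surf S J) (c : J → ℝ) (x : S) :
    E.rot c x = rotFun E c x := rfl

theorem Surf.rot_add [Finite J] (E : Surf S J) (c d : J → ℝ) : E.rot c * E.rot d = E.rot (c + d) := by
  ext x
  exact rotFun_add E c d x

theorem Surf.rot_zero [Finite J] (E : Surf S J) : E.rot 0 = 1 := by
  ext x
  exact rotFun_zero E x

theorem Surf.rot_zpow [Finite J] (E : Surf S J) (c : J → ℝ) (k : ℤ) :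
    E.rot c ^ k = E.rot (fun j => c j * k) := by
  induction k using Int.induction_on with
  | zero =>
    rw [zpow_zero, ← E.rot_zero]
    congr 1
    funext j
    simp
  | succ i ih =>
    rw [zpow_add_one, ih, E.rot_add]
    congr 1
    funext j
    simp only [Pi.add_apply]
    push_cast
    ring
  | pred i ih =>
    have h1 : (E.rot c)⁻¹ = E.rot (-c) := by
      apply inv_eq_of_mul_eq_one_right
      rw [E.rot_add, add_neg_cancel, E.rot_zero]
    rw [zpow_sub_one, ih, h1, E.rot_add]
    congr 1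
    funext j
    simp only [Pi.add_apply, Pi.neg_apply]
    push_cast
    ring

/-- homeomorphisms which are the identity on the collars commute with the rotations -/
theorem Surf.rot_comm [Finite J] (E : Surf S J) (c : J → ℝ) (phi : S ≃ₜ S)
    (hphi : ∀ j z, phi (E.collar j z) = E.collar j z) : Commute (E.rot c) phi := by
  ext x
  show rotFun E c (phi x) = phi (rotFun E c x)
  rcases Tw_cases E x with ⟨j, θ, r, rfl⟩ | h
  · rw [hphi, rotFun_collar, hphi]
  · have h' : ∀ j z, E.collar j z ≠ phi x := by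
      intro j z hz
      apply h j z
      apply phi.injective
      rw [hphi, hz]
    rw [rotFun_off E c x h, rotFun_off E c _ h']

/-- the rotation by an integral vector is the identity on the smaller collars -/
theorem Surf.rot_shrink [Finite J] (E : Surf S J) (c : J → ℝ) (j : J) (θ : AddCircle (1 : ℝ))
    (r : Ioo (1 : ℝ) 2) :
    E.rot c (E.shrink.collar j (θ, r)) =
      E.shrink.collar j (θ + ((c j : ℝ) : AddCircle (1 : ℝ)), r) := by
  show rotFun E c (E.collar j (θ, Tw_eta r)) = E.collar j (_, Tw_eta r)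
  rw [rotFun_collar, Tw_chi_one (Tw_eta_lt r).le, mul_one]

end

end Pool.Agent.H.MP_1611f1_gt
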